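import Mathlib
import Pool.Agent.helper46.BC.Fin

/-!
# Upper bound for the number of solutions with `∏ P ≤ x`
-/

namespace Pool.Agent.Results.MP_acf702_nt.CountBySize

/-- Let `c < √2 / 4 = 0.3535…`.  For all large `x`, the pairs `(P, Q)` of finite sets of primes with
`(∑_{p ∈ P} 1/p) (∑_{q ∈ Q} 1/q) = 1` and `∏ P ≤ x` are finite in number, and their number is
at most `x exp(-c √(log x log log x))`. -/
theorem result (c : ℝ) (hc : c < Real.sqrt 2 / 4) : ∃ x₀ : ℕ, ∀ x : ℕ, x₀ ≤ x →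
    {s : Finset ℕ × Finset ℕ | (∀ p ∈ s.1, p.Prime) ∧ (∀ q ∈ s.2, q.Prime) ∧
      (∑ p ∈ s.1, (1:ℚ) / p) * (∑ q ∈ s.2, (1:ℚ) / q) = 1 ∧ ∏ p ∈ s.1, p ≤ x}.Finite ∧
    ({s : Finset ℕ × Finset ℕ | (∀ p ∈ s.1, p.Prime) ∧ (∀ q ∈ s.2, q.Prime) ∧
      (∑ p ∈ s.1, (1:ℚ) / p) * (∑ q ∈ s.2, (1:ℚ) / q) = 1 ∧ ∏ p ∈ s.1, p ≤ x}.ncard : ℝ) ≤
      x * Real.exp (-c * Real.sqrt (Real.log x * Real.log (Real.log x))) :=
  Pool.Agent.helper46.BC.partA c hc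

end Pool.Agent.Results.MP_acf702_nt.CountBySize
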