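import Mathlib
import Pool.Agent.helper46.BC.PD

/-!
# Solutions inside a finite set of coprime integers
-/

open Finset

namespace Pool.Agent.Results.MP_acf702_nt.InsideSet

/-- Let `S` be a set of `n` pairwise coprime positive integers, and consider the pairs `(A, B)` of
subsets of `S`, other than `({1}, {1})`, with `(∑_{a ∈ A} 1/a) (∑_{b ∈ B} 1/b) = 1`.
For all `i`, `j`, the number `F` of those with `|A ∪ B| = i + j` satisfies
`C(i + j, i) F ≤ 2 (⌊log₂ n⌋ + 1) (2^i C(n, i) + 2^j C(n, j))`, and the number of all of them is at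
most `8 (n + 1) (⌊log₂ n⌋ + 1) (3/2)^n`. -/
theorem result (S : Finset ℕ) (hS : ∀ a ∈ S, 0 < a) (cS : (S : Set ℕ).Pairwise Nat.Coprime) :
    (∀ i j : ℕ, (i + j).choose i *
      ((S.powerset ×ˢ S.powerset).filter (fun s : Finset ℕ × Finset ℕ => s ≠ ({1}, {1}) ∧
        (∑ a ∈ s.1, (1:ℚ) / a) * (∑ b ∈ s.2, (1:ℚ) / b) = 1 ∧
        (s.1 ∪ s.2).card = i + j)).card ≤
      2 * (Nat.log 2 S.card + 1) * (2 ^ i * S.card.choose i + 2 ^ j * S.card.choose j)) ∧
    (((S.powerset ×ˢ S.powerset).filter (fun s : Finset ℕ × Finset ℕ => s ≠ ({1}, {1}) ∧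
      (∑ a ∈ s.1, (1:ℚ) / a) * (∑ b ∈ s.2, (1:ℚ) / b) = 1)).card : ℝ) ≤
      8 * ((S.card : ℝ) + 1) * ((Nat.log 2 S.card : ℝ) + 1) * (3 / 2) ^ S.card := by
  refine ⟨fun i j => ?_, Pool.Agent.helper46.BC.partB S hS cS⟩
  have h := Pool.Agent.helper46.BC.partK S hS cS i j
  have e : (S.powerset ×ˢ S.powerset).filter (fun s : Finset ℕ × Finset ℕ => s ≠ ({1}, {1}) ∧
        (∑ a ∈ s.1, (1:ℚ) / a) * (∑ b ∈ s.2, (1:ℚ) / b) = 1 ∧
        (s.1 ∪ s.2).card = i + j) = Pool.Agent.helper46.BC.solK S (i + j) := by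
    unfold Pool.Agent.helper46.BC.solK Pool.Agent.helper46.BC.solB
    rw [Finset.filter_filter]
    refine Finset.filter_congr fun s _ => ?_
    tauto
  rw [e]
  exact h

end Pool.Agent.Results.MP_acf702_nt.InsideSet
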