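import Mathlib
import Pool.Agent.helper46.BC.LP

/-!
# Solutions with a large prime are rare, with a power saving
-/

namespace Pool.Agent.Results.MP_acf702_nt.LargePrime

/-- Let `x ≥ 2`, `y ≥ 1` be integers and `X = x ⌊log₂ x⌋`.  The set of pairs `(P, Q)` of finite
sets of primes with `(∑_{p ∈ P} 1/p) (∑_{q ∈ Q} 1/q) = 1`, `∏ P ≤ x`, and with an element of
`P ∪ Q` above `2 ⌊log₂ X⌋² y⁴`, is finite and has at most `4 X (1 + log X) / y` elements. -/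
theorem result (x X y : ℕ) (hx : 2 ≤ x) (hX : X = x * Nat.log 2 x) (hy : 1 ≤ y) :
    {s : Finset ℕ × Finset ℕ | (∀ p ∈ s.1, p.Prime) ∧ (∀ q ∈ s.2, q.Prime) ∧
      (∑ p ∈ s.1, (1:ℚ) / p) * (∑ q ∈ s.2, (1:ℚ) / q) = 1 ∧ ∏ p ∈ s.1, p ≤ x ∧
      ∃ p ∈ s.1 ∪ s.2, 2 * (Nat.log 2 X) ^ 2 * y ^ 4 < p}.Finite ∧
    ({s : Finset ℕ × Finset ℕ | (∀ p ∈ s.1, p.Prime) ∧ (∀ q ∈ s.2, q.Prime) ∧
      (∑ p ∈ s.1, (1:ℚ) / p) * (∑ q ∈ s.2, (1:ℚ) / q) = 1 ∧ ∏ p ∈ s.1, p ≤ x ∧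
      ∃ p ∈ s.1 ∪ s.2, 2 * (Nat.log 2 X) ^ 2 * y ^ 4 < p}.ncard : ℝ) ≤
      4 * X * (1 + Real.log X) / y :=
  ⟨Pool.Agent.helper46.BC.solL_finite x _, Pool.Agent.helper46.BC.large_prime hx hX hy⟩

end Pool.Agent.Results.MP_acf702_nt.LargePrime
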