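import Mathlib

open Finset

namespace Pool.Agent.Results.MP_acf702_nt.ReciprocityLaw

/-- `∑_{a ∈ S} ∏_{b ∈ S, b ≠ a} b`, the numerator of `∑ 1/a` over the denominator `∏ a`. -/
def dv (S : Finset ℕ) : ℕ := ∑ a ∈ S, ∏ b ∈ S.erase a, b

lemma sum_inv_mul (S : Finset ℕ) (h : ∀ a ∈ S, 0 < a) :
    (∑ a ∈ S, (1:ℚ)/a) * ((∏ a ∈ S, a : ℕ) : ℚ) = (dv S : ℚ) := by
  rw [dv, Finset.sum_mul, Nat.cast_sum]
  refine Finset.sum_congr rfl fun a ha => ?_
  have h0 : (a:ℚ) ≠ 0 := by exact_mod_cast (h a ha).ne'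
  rw [← Finset.mul_prod_erase S (fun a => a) ha]
  push_cast
  field_simp

lemma dvd_prod_erase {S : Finset ℕ} {a b : ℕ} (ha : a ∈ S) (hab : a ≠ b) :
    a ∣ ∏ x ∈ S.erase b, x :=
  Finset.dvd_prod_of_mem (fun x => x) (Finset.mem_erase.mpr ⟨hab, ha⟩)

lemma dv_modEq {S : Finset ℕ} {a : ℕ} (ha : a ∈ S) :
    dv S ≡ ∏ b ∈ S.erase a, b [MOD a] := by
  rw [dv, ← Finset.add_sum_erase S _ ha]
  have : a ∣ ∑ x ∈ S.erase a, ∏ b ∈ S.erase x, b := by
    refine Finset.dvd_sum fun x hx => ?_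
    exact dvd_prod_erase ha (Finset.ne_of_mem_erase hx).symm
  calc (∏ b ∈ S.erase a, b) + ∑ x ∈ S.erase a, ∏ b ∈ S.erase x, b
      ≡ (∏ b ∈ S.erase a, b) + 0 [MOD a] :=
        Nat.ModEq.add_left _ ((Nat.modEq_zero_iff_dvd).mpr this)
    _ = _ := by simp

lemma coprime_erase {S : Finset ℕ} (hc : (S : Set ℕ).Pairwise Nat.Coprime) {a : ℕ} (ha : a ∈ S) :
    Nat.Coprime (∏ b ∈ S.erase a, b) a := by
  refine Nat.Coprime.prod_left fun b hb => ?_
  have hb' := Finset.mem_erase.mp hb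
  exact hc (by exact_mod_cast hb'.2) (by exact_mod_cast ha) hb'.1

lemma coprime_dv {S : Finset ℕ} (hc : (S : Set ℕ).Pairwise Nat.Coprime) :
    Nat.Coprime (dv S) (∏ a ∈ S, a) := by
  refine Nat.Coprime.prod_right fun a ha => ?_
  have h1 : Nat.gcd (dv S) a = Nat.gcd (∏ b ∈ S.erase a, b) a := (dv_modEq ha).gcd_eq
  have h2 := coprime_erase hc ha
  unfold Nat.Coprime at *
  rw [h1, h2]

lemma prod_pos' {S : Finset ℕ} (h : ∀ a ∈ S, 0 < a) : 0 < ∏ a ∈ S, a := Finset.prod_pos h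

/-- the two cycle of the derivative -/
lemma cycle {A B : Finset ℕ} (hA : ∀ a ∈ A, 0 < a) (hB : ∀ b ∈ B, 0 < b)
    (cA : (A : Set ℕ).Pairwise Nat.Coprime) (cB : (B : Set ℕ).Pairwise Nat.Coprime)
    (h : (∑ a ∈ A, (1:ℚ)/a) * (∑ b ∈ B, (1:ℚ)/b) = 1) :
    dv A = ∏ b ∈ B, b ∧ dv B = ∏ a ∈ A, a := by
  have h1 := sum_inv_mul A hA
  have h2 := sum_inv_mul B hB
  have h3 : dv A * dv B = (∏ a ∈ A, a) * ∏ b ∈ B, b := by
    have : ((dv A : ℚ)) * (dv B : ℚ) = ((∏ a ∈ A, a : ℕ) : ℚ) * ((∏ b ∈ B, b : ℕ) : ℚ) := by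
      rw [← h1, ← h2]
      linear_combination ((∏ a ∈ A, a : ℕ) : ℚ) * ((∏ b ∈ B, b : ℕ) : ℚ) * h
    exact_mod_cast this
  have c1 := coprime_dv cA
  have c2 := coprime_dv cB
  have d1 : (∏ a ∈ A, a) ∣ dv B :=
    c1.symm.dvd_of_dvd_mul_left (by rw [h3]; exact Dvd.intro _ rfl)
  have d2 : dv B ∣ ∏ a ∈ A, a :=
    c2.dvd_of_dvd_mul_right (by rw [← h3]; exact Dvd.intro_left _ rfl)
  have e2 : dv B = ∏ a ∈ A, a := Nat.dvd_antisymm d2 d1
  refine ⟨?_, e2⟩
  rw [e2, mul_comm] at h3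
  exact Nat.eq_of_mul_eq_mul_left (prod_pos' hA) h3

lemma eq_singleton_one {A : Finset ℕ} (hA : ∀ a ∈ A, 0 < a) (h1 : 1 ∈ A)
    (h : dv A ≤ ∏ a ∈ A, a) : A = {1} := by
  have hp : (∏ b ∈ A.erase 1, b) = ∏ a ∈ A, a := by
    rw [← Finset.mul_prod_erase A (fun a => a) h1, one_mul]
  have hs : dv A = (∏ b ∈ A.erase 1, b) + ∑ x ∈ A.erase 1, ∏ b ∈ A.erase x, b := by
    rw [dv, ← Finset.add_sum_erase A _ h1]
  have h0 : ∑ x ∈ A.erase 1, ∏ b ∈ A.erase x, b = 0 := by omega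
  have : A.erase 1 = ∅ := by
    by_contra hne
    obtain ⟨x, hx⟩ := Finset.nonempty_iff_ne_empty.mpr hne
    have := (Finset.sum_eq_zero_iff.mp h0) x hx
    have hpos : 0 < ∏ b ∈ A.erase x, b :=
      Finset.prod_pos fun b hb => hA b (Finset.mem_of_mem_erase hb)
    omega
  rw [← Finset.insert_erase h1, this]
  rfl

lemma disj {A B : Finset ℕ} (hA : ∀ a ∈ A, 0 < a) (hB : ∀ b ∈ B, 0 < b)
    (cA : (A : Set ℕ).Pairwise Nat.Coprime)
    (hne : ¬ (A = {1} ∧ B = {1}))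
    (h1 : dv A = ∏ b ∈ B, b) (h2 : dv B = ∏ a ∈ A, a) : Disjoint A B := by
  rw [Finset.disjoint_left]
  intro x hx hx'
  have c := coprime_dv cA
  rw [h1] at c
  have hd : x ∣ 1 := by
    rw [← c]
    exact Nat.dvd_gcd (Finset.dvd_prod_of_mem (fun x => x) hx')
      (Finset.dvd_prod_of_mem (fun x => x) hx)
  have hx1 : x = 1 := Nat.dvd_one.mp hd
  subst hx1
  apply hne
  have a1 : (∏ a ∈ A, a) ≤ dv A := by
    rw [dv, ← Finset.add_sum_erase A _ hx, ← Finset.mul_prod_erase A (fun a => a) hx, one_mul]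
    omega
  have b1 : (∏ a ∈ B, a) ≤ dv B := by
    rw [dv, ← Finset.add_sum_erase B _ hx', ← Finset.mul_prod_erase B (fun a => a) hx', one_mul]
    omega
  exact ⟨eq_singleton_one hA hx (by omega), eq_singleton_one hB hx' (by omega)⟩

/-! ### Jacobi symbols -/

open scoped NumberTheorySymbols

/-- number of elements `≡ 3 mod 4` -/
def cc (S : Finset ℕ) : ℕ := (S.filter (fun a => a % 4 = 3)).card
/-- number of elements `≡ 1 mod 4` -/
def aa (S : Finset ℕ) : ℕ := (S.filter (fun a => a % 4 = 1)).card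

lemma prod_mod4 {S : Finset ℕ} (h : ∀ a ∈ S, Odd a) :
    (∏ a ∈ S, a) % 4 = if cc S % 2 = 0 then 1 else 3 := by
  induction S using Finset.induction_on with
  | empty => simp [cc]
  | insert x S hx ih =>
    have ih' := ih fun a ha => h a (Finset.mem_insert_of_mem ha)
    have hxo : x % 4 = 1 ∨ x % 4 = 3 := by
      obtain ⟨k, hk⟩ := h x (Finset.mem_insert_self x S)
      omega
    rw [Finset.prod_insert hx, Nat.mul_mod, ih']
    have hcc : cc (insert x S) = cc S + if x % 4 = 3 then 1 else 0 := by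
      unfold cc
      rw [Finset.filter_insert]
      split_ifs with h3
      · rw [Finset.card_insert_of_notMem (by simp [hx])]
      · rfl
    rw [hcc]
    rcases hxo with h1 | h1 <;> rw [h1] <;> split_ifs <;> first | rfl | omega

lemma sum_mod4 {S : Finset ℕ} (h : ∀ a ∈ S, Odd a) :
    (∑ a ∈ S, a) % 4 = (aa S + 3 * cc S) % 4 := by
  induction S using Finset.induction_on with
  | empty => simp [aa, cc]
  | insert x S hx ih =>
    have ih' := ih fun a ha => h a (Finset.mem_insert_of_mem ha)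
    have hxo : x % 4 = 1 ∨ x % 4 = 3 := by
      obtain ⟨k, hk⟩ := h x (Finset.mem_insert_self x S)
      omega
    have hcc : cc (insert x S) = cc S + if x % 4 = 3 then 1 else 0 := by
      unfold cc
      rw [Finset.filter_insert]
      split_ifs with h3
      · rw [Finset.card_insert_of_notMem (by simp [hx])]
      · rfl
    have haa : aa (insert x S) = aa S + if x % 4 = 1 then 1 else 0 := by
      unfold aa
      rw [Finset.filter_insert]
      split_ifs with h3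
      · rw [Finset.card_insert_of_notMem (by simp [hx])]
      · rfl
    rw [Finset.sum_insert hx, hcc, haa]
    rcases hxo with h1 | h1 <;> simp only [h1] <;> simp <;> omega

lemma choose_parity (c : ℕ) : (c.choose 2) % 2 = if c % 4 < 2 then 0 else 1 := by
  induction c with
  | zero => simp
  | succ c ih =>
    have : (c+1).choose 2 = c + c.choose 2 := by
      rw [Nat.choose_succ_succ' c 1, Nat.choose_one_right]
    rw [this]
    split_ifs at ih ⊢ <;> omega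

lemma prod_coprime {S : Finset ℕ} {x : ℕ} (h : ∀ a ∈ S, Nat.Coprime x a) :
    Nat.Coprime x (∏ a ∈ S, a) := Nat.Coprime.prod_right h

lemma jac_prod_right (x : ℤ) {S : Finset ℕ} (h : ∀ a ∈ S, a ≠ 0) :
    J(x | ∏ a ∈ S, a) = ∏ a ∈ S, J(x | a) := by
  induction S using Finset.induction_on with
  | empty => simp
  | insert y S hy ih =>
    rw [Finset.prod_insert hy, Finset.prod_insert hy]
    have : NeZero y := ⟨h y (Finset.mem_insert_self y S)⟩
    have : NeZero (∏ a ∈ S, a) :=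
      ⟨Finset.prod_ne_zero_iff.mpr fun a ha => h a (Finset.mem_insert_of_mem ha)⟩
    rw [jacobiSym.mul_right, ih fun a ha => h a (Finset.mem_insert_of_mem ha)]

lemma recip {a b : ℕ} (ha : Odd a) (hb : Odd b) (hab : Nat.Coprime a b) :
    J(a | b) * J(b | a) = (-1) ^ (a / 2 * (b / 2)) := by
  rw [jacobiSym.quadratic_reciprocity ha hb, mul_assoc, ← sq,
    jacobiSym.sq_one (by rw [Int.gcd_natCast_natCast]; exact hab.symm), mul_one]

lemma odd_prod {S : Finset ℕ} (h : ∀ a ∈ S, Odd a) : Odd (∏ a ∈ S, a) := by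
  induction S using Finset.induction_on with
  | empty => simp
  | insert x S hx ih =>
    rw [Finset.prod_insert hx]
    exact (h x (Finset.mem_insert_self x S)).mul
      (ih fun a ha => h a (Finset.mem_insert_of_mem ha))

lemma cc_insert {x : ℕ} {S : Finset ℕ} (hx : x ∉ S) :
    cc (insert x S) = cc S + if x % 4 = 3 then 1 else 0 := by
  unfold cc
  rw [Finset.filter_insert]
  split_ifs with h3
  · rw [Finset.card_insert_of_notMem (by simp [hx])]
  · rfl

/-- `∏_{a} (∏_{b≠a} b | a) = (-1)^{C(c,2)}` -/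
lemma pair_prod {S : Finset ℕ} (h : ∀ a ∈ S, Odd a) (hc : (S : Set ℕ).Pairwise Nat.Coprime) :
    ∏ a ∈ S, J((∏ b ∈ S.erase a, b : ℕ) | a) = (-1) ^ ((cc S).choose 2) := by
  induction S using Finset.induction_on with
  | empty => simp [cc]
  | insert x S hx ih =>
    have hS : ∀ a ∈ S, Odd a := fun a ha => h a (Finset.mem_insert_of_mem ha)
    have hcS : (S : Set ℕ).Pairwise Nat.Coprime :=
      hc.mono (by simp)
    have ih' := ih hS hcS
    have hxo : Odd x := h x (Finset.mem_insert_self x S)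
    have hxc : Nat.Coprime x (∏ a ∈ S, a) := by
      refine prod_coprime fun a ha => ?_
      exact hc (by simp) (by simp [ha]) (by rintro rfl; exact hx ha)
    rw [Finset.prod_insert hx, Finset.erase_insert hx]
    have e1 : ∏ a ∈ S, J((∏ b ∈ (insert x S).erase a, b : ℕ) | a)
        = (∏ a ∈ S, J((x:ℤ) | a)) * ∏ a ∈ S, J((∏ b ∈ S.erase a, b : ℕ) | a) := by
      rw [← Finset.prod_mul_distrib]
      refine Finset.prod_congr rfl fun a ha => ?_
      have hax : a ≠ x := by rintro rfl; exact hx ha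
      rw [← jacobiSym.mul_left, Finset.erase_insert_of_ne hax.symm,
        Finset.prod_insert (by simp [hx])]
      push_cast
      rfl
    rw [e1, ih', ← jac_prod_right _ (fun a ha => (hS a ha).pos.ne'), ← mul_assoc]
    have e2 := recip (odd_prod hS) hxo hxc.symm
    have e3 : (((∏ a ∈ S, a : ℕ) : ℤ)) = ∏ a ∈ S, (a:ℤ) := by push_cast; rfl
    rw [e2, cc_insert hx]
    have hp := prod_mod4 hS
    have hx4 : x % 4 = 1 ∨ x % 4 = 3 := by obtain ⟨k, hk⟩ := hxo; omega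
    rcases hx4 with h1 | h1
    · have : Even (x / 2) := ⟨x / 4, by omega⟩
      have hev : Even ((∏ a ∈ S, a) / 2 * (x / 2)) := this.mul_left _
      rw [hev.neg_one_pow]
      simp [h1]
    · rw [if_pos h1, Nat.choose_succ_succ' (cc S) 1, Nat.choose_one_right, pow_add]
      congr 1
      have hxodd : Odd (x / 2) := ⟨x / 4, by omega⟩
      rcases Nat.even_or_odd (cc S) with hev | hod
      · rw [hev.neg_one_pow]
        have : (∏ a ∈ S, a) % 4 = 1 := by
          rw [hp, if_pos (Nat.even_iff.mp hev)]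
        have h2 : Even ((∏ a ∈ S, a) / 2) := ⟨(∏ a ∈ S, a) / 4, by omega⟩
        exact (h2.mul_right _).neg_one_pow
      · rw [hod.neg_one_pow]
        have : (∏ a ∈ S, a) % 4 = 3 := by
          rw [hp, if_neg (by rw [Nat.odd_iff.mp hod]; norm_num)]
        have h2 : Odd ((∏ a ∈ S, a) / 2) := ⟨(∏ a ∈ S, a) / 4, by omega⟩
        exact (h2.mul hxodd).neg_one_pow

/-- `dv S ≡ ∏ S * ∑ S mod 8` for odd elements -/
lemma dv_mod8 {S : Finset ℕ} (h : ∀ a ∈ S, Odd a) :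
    dv S ≡ (∏ a ∈ S, a) * ∑ a ∈ S, a [MOD 8] := by
  rw [dv, Finset.mul_sum]
  refine Nat.ModEq.sum fun a ha => ?_
  rw [← Finset.mul_prod_erase S (fun a => a) ha]
  have h1 : a * a ≡ 1 [MOD 8] := by
    obtain ⟨k, hk⟩ := h a ha
    have : a % 8 = 1 ∨ a % 8 = 3 ∨ a % 8 = 5 ∨ a % 8 = 7 := by omega
    rcases this with h | h | h | h <;> simp [Nat.ModEq, Nat.mul_mod, h]
  calc (∏ b ∈ S.erase a, b) = 1 * ∏ b ∈ S.erase a, b := (one_mul _).symm
    _ ≡ (a * a) * ∏ b ∈ S.erase a, b [MOD 8] := (h1.symm).mul_right _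
    _ = _ := by ring

lemma jac_congr {a b m : ℕ} (h : a ≡ b [MOD m]) : J((a:ℤ) | m) = J((b:ℤ) | m) := by
  apply jacobiSym.mod_left'
  exact_mod_cast h


/-- product formula for the odd part against the other side -/
lemma jac_side {S : Finset ℕ} {K L e : ℕ} (h : ∀ a ∈ S, Odd a)
    (hc : (S : Set ℕ).Pairwise Nat.Coprime)
    (hK : ∀ a ∈ S, e * ∏ b ∈ S.erase a, b ≡ K [MOD a]) (hL : L = ∏ a ∈ S, a) :
    J((K:ℤ) | L) = J((e:ℤ) | L) * (-1) ^ ((cc S).choose 2) := by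
  have h0 : ∀ a ∈ S, a ≠ 0 := fun a ha => (h a ha).pos.ne'
  rw [hL, jac_prod_right _ h0, jac_prod_right _ h0, ← pair_prod h hc, ← Finset.prod_mul_distrib]
  refine Finset.prod_congr rfl fun a ha => ?_
  rw [← jac_congr (hK a ha), ← jacobiSym.mul_left]
  push_cast
  rfl

lemma neg_one_pow_choose (c : ℕ) : (-1:ℤ) ^ (c.choose 2) = if c % 4 < 2 then 1 else -1 := by
  have h := choose_parity c
  split_ifs with h1
  · rw [if_pos h1] at h
    exact (Nat.even_iff.mpr h).neg_one_pow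
  · rw [if_neg h1] at h
    exact (Nat.odd_iff.mpr h).neg_one_pow

lemma sign_eq {N M : ℕ} (oN : Odd N) (oM : Odd M) :
    (-1:ℤ) ^ (N / 2 * (M / 2)) = if N % 4 = 3 ∧ M % 4 = 3 then -1 else 1 := by
  have key : ∀ x y : ℕ, x % 4 = 3 → y % 4 = 3 → Odd (x / 2 * (y / 2)) := fun x y hx hy =>
    Odd.mul ⟨x / 4, by omega⟩ ⟨y / 4, by omega⟩
  have key1 : ∀ x y : ℕ, x % 4 = 1 → Even (x / 2 * (y / 2)) := fun x y hx =>
    Even.mul_right ⟨x / 4, by omega⟩ _
  have key2 : ∀ x y : ℕ, y % 4 = 1 → Even (x / 2 * (y / 2)) := fun x y hy =>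
    Even.mul_left ⟨y / 4, by omega⟩ _
  split_ifs with h
  · exact (key N M h.1 h.2).neg_one_pow
  · have : N % 4 = 1 ∨ M % 4 = 1 := by
      obtain ⟨k, hk⟩ := oN
      obtain ⟨l, hl⟩ := oM
      omega
    rcases this with h | h
    · exact (key1 N M h).neg_one_pow
    · exact (key2 N M h).neg_one_pow

lemma odd_case {A B : Finset ℕ} (hA : ∀ a ∈ A, Odd a) (hB : ∀ b ∈ B, Odd b)
    (cA : (A : Set ℕ).Pairwise Nat.Coprime) (cB : (B : Set ℕ).Pairwise Nat.Coprime)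
    (h1 : dv A = ∏ b ∈ B, b) (h2 : dv B = ∏ a ∈ A, a) :
    ((cc A + cc B) % 4 = 0 ∧ (aa A + 3 * cc A) % 4 = 1 ∧ (aa B + 3 * cc B) % 4 = 1) ∨
    ((cc A + cc B) % 4 = 1 ∧ (aa A + 3 * cc A) % 4 = 3 ∧ (aa B + 3 * cc B) % 4 = 3) := by
  set N := ∏ a ∈ A, a with hN
  set M := ∏ b ∈ B, b with hM
  have hNM : Nat.Coprime N M := by
    have := coprime_dv cA
    rw [h1] at this
    exact this.symm
  have oN : Odd N := odd_prod hA
  have oM : Odd M := odd_prod hB
  have j1 : J((M:ℤ) | N) = J(((1:ℕ):ℤ) | N) * (-1) ^ ((cc A).choose 2) := by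
    refine jac_side hA cA (fun a ha => ?_) hN
    rw [one_mul, ← h1]
    exact (dv_modEq ha).symm
  have j2 : J((N:ℤ) | M) = J(((1:ℕ):ℤ) | M) * (-1) ^ ((cc B).choose 2) := by
    refine jac_side hB cB (fun a ha => ?_) hM
    rw [one_mul, ← h2]
    exact (dv_modEq ha).symm
  have j3 := recip oN oM hNM
  rw [j1, j2] at j3
  simp only [Nat.cast_one, jacobiSym.one_left, one_mul] at j3
  rw [neg_one_pow_choose, neg_one_pow_choose] at j3
  have m1 := prod_mod4 hA
  have m2 := prod_mod4 hB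
  rw [← hN] at m1
  rw [← hM] at m2
  have s1 := sum_mod4 hA
  have s2 := sum_mod4 hB
  have d1 := dv_mod8 hA
  have d2 := dv_mod8 hB
  rw [h1, ← hN] at d1
  rw [h2, ← hM] at d2
  -- reduce mod 4
  have d1' : M % 4 = ((N % 4) * ((∑ a ∈ A, a) % 4)) % 4 := by
    have := Nat.ModEq.of_dvd (by norm_num : 4 ∣ 8) d1
    rw [← Nat.mul_mod]; exact this
  have d2' : N % 4 = ((M % 4) * ((∑ a ∈ B, a) % 4)) % 4 := by
    have := Nat.ModEq.of_dvd (by norm_num : 4 ∣ 8) d2
    rw [← Nat.mul_mod]; exact this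
  rw [s1] at d1'
  rw [s2] at d2'
  -- parity of exponents
  have jj := sign_eq oN oM
  rw [jj] at j3
  have c1 : cc A % 4 = 0 ∨ cc A % 4 = 1 ∨ cc A % 4 = 2 ∨ cc A % 4 = 3 := by omega
  have c2 : cc B % 4 = 0 ∨ cc B % 4 = 1 ∨ cc B % 4 = 2 ∨ cc B % 4 = 3 := by omega
  have q1 : cc A % 2 = (cc A % 4) % 2 := by omega
  have q2 : cc B % 2 = (cc B % 4) % 2 := by omega
  rw [q1] at m1
  rw [q2] at m2
  rcases c1 with c1 | c1 | c1 | c1 <;> rcases c2 with c2 | c2 | c2 | c2 <;>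
    (rw [c1] at m1; rw [c2] at m2; simp only [c1, c2] at j3; norm_num at m1 m2; rw [m1] at d1' d2' j3; rw [m2] at d1' d2' j3; norm_num at j3; try omega)


lemma dv_insert {S : Finset ℕ} {e : ℕ} (he : e ∉ S) :
    dv (insert e S) = (∏ a ∈ S, a) + e * dv S := by
  unfold dv
  rw [Finset.sum_insert he, Finset.erase_insert he, Finset.mul_sum]
  congr 1
  refine Finset.sum_congr rfl fun a ha => ?_
  have hne : e ≠ a := by rintro rfl; exact he ha
  rw [Finset.erase_insert_of_ne hne, Finset.prod_insert (by simp [he])]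

lemma final_arith {f K u v sA sB n M a1 c1 a2 c2 : ℕ}
    (f4 : f % 4 = 1 ∨ f % 4 = 3)
    (j6 : (if K % 2 = 0 then (0:ℤ) else if K % 8 = 1 ∨ K % 8 = 7 then 1 else -1) *
        (if f % 4 = 3 ∧ K % 4 = 3 then -1 else 1) * (if n % 4 = 3 ∧ M % 4 = 3 then -1 else 1) =
      (if c1 % 4 < 2 then 1 else -1) * (if c2 % 4 < 2 then 1 else -1))
    (m1 : n % 4 = if (c1 % 4) % 2 = 0 then 1 else 3)
    (m2 : M % 4 = if (c2 % 4) % 2 = 0 then 1 else 3)
    (s1 : sA % 4 = (a1 + 3 * c1) % 4) (s2 : sB % 4 = (a2 + 3 * c2) % 4)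
    (K1 : K % 8 = (1 + 2 * u) % 8) (K2 : sB % 8 = (2 * v) % 8)
    (K3 : K % 4 = ((n % 4) * (M % 4)) % 4)
    (K4 : u % 4 = ((f % 4) * (sA % 4)) % 4) (K5 : v % 4 = ((f % 4) * (K % 4)) % 4) :
    (a1 + c2) % 4 = 0 ∧ (a2 + 3 * c2) % 4 = 2 := by
  have c1' : c1 % 4 = 0 ∨ c1 % 4 = 1 ∨ c1 % 4 = 2 ∨ c1 % 4 = 3 := by omega
  have c2' : c2 % 4 = 0 ∨ c2 % 4 = 1 ∨ c2 % 4 = 2 ∨ c2 % 4 = 3 := by omega
  have u4 : (u % 4 = 0 ∧ K % 8 = 1 ∧ K % 4 = 1 ∧ K % 2 = 1) ∨
      (u % 4 = 1 ∧ K % 8 = 3 ∧ K % 4 = 3 ∧ K % 2 = 1) ∨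
      (u % 4 = 2 ∧ K % 8 = 5 ∧ K % 4 = 1 ∧ K % 2 = 1) ∨
      (u % 4 = 3 ∧ K % 8 = 7 ∧ K % 4 = 3 ∧ K % 2 = 1) := by omega
  rcases c1' with c1' | c1' | c1' | c1' <;> simp only [c1'] at m1 j6 <;> norm_num at m1 <;>
  rcases c2' with c2' | c2' | c2' | c2' <;> simp only [c2'] at m2 j6 <;> norm_num at m2 <;>
  simp only [m1, m2] at K3 j6 <;> norm_num at K3 <;>
  rcases u4 with ⟨u4, u5, u6, u7⟩ | ⟨u4, u5, u6, u7⟩ | ⟨u4, u5, u6, u7⟩ | ⟨u4, u5, u6, u7⟩ <;>
  first
  | omega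
  | (rcases f4 with f4 | f4 <;> simp only [u5, u6, u7, f4] at j6 K4 K5 <;> norm_num at j6 <;>
      omega)

lemma even_case {A B : Finset ℕ} {e : ℕ} (he : e % 4 = 2) (heA : e ∉ A)
    (hA : ∀ a ∈ A, Odd a) (hB : ∀ b ∈ B, Odd b)
    (cA : ((insert e A : Finset ℕ) : Set ℕ).Pairwise Nat.Coprime)
    (cB : (B : Set ℕ).Pairwise Nat.Coprime)
    (h1 : dv (insert e A) = ∏ b ∈ B, b) (h2 : dv B = ∏ a ∈ insert e A, a) :
    (aa A + cc B) % 4 = 0 ∧ (aa B + 3 * cc B) % 4 = 2 := by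
  set n := ∏ a ∈ A, a with hn
  set M := ∏ b ∈ B, b with hM
  have hN : ∏ a ∈ insert e A, a = e * n := by rw [Finset.prod_insert heA]
  have cA' : (A : Set ℕ).Pairwise Nat.Coprime := cA.mono (by simp)
  have hNM : Nat.Coprime (e * n) M := by
    have := coprime_dv cA
    rw [h1, hN] at this
    exact this.symm
  have hnM : Nat.Coprime n M := Nat.Coprime.coprime_mul_left hNM
  have heM : Nat.Coprime e M := Nat.Coprime.coprime_mul_right hNM
  have hen : Nat.Coprime e n := by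
    refine prod_coprime fun a ha => ?_
    exact cA (by simp) (by simp [ha]) (by rintro rfl; exact heA ha)
  have on : Odd n := odd_prod hA
  have oM : Odd M := odd_prod hB
  have hMn : M = n + e * dv A := by rw [← h1, dv_insert heA]
  have j1 : J((M:ℤ) | n) = J((e:ℤ) | n) * (-1) ^ ((cc A).choose 2) := by
    refine jac_side hA cA' (fun a ha => ?_) hn
    have hne : e ≠ a := by rintro rfl; exact heA ha
    rw [← h1]
    have := (dv_modEq (S := insert e A) (Finset.mem_insert_of_mem ha)).symm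
    rwa [Finset.erase_insert_of_ne hne, Finset.prod_insert (by simp [heA])] at this
  have j2 : J(((e * n : ℕ):ℤ) | M) = J(((1:ℕ):ℤ) | M) * (-1) ^ ((cc B).choose 2) := by
    refine jac_side hB cB (fun a ha => ?_) hM
    rw [one_mul, ← hN, ← h2]
    exact (dv_modEq ha).symm
  have j3 := recip on oM hnM
  have jen : J((e:ℤ) | n) ^ 2 = 1 :=
    jacobiSym.sq_one (by rw [Int.gcd_natCast_natCast]; exact hen)
  have nn : NeZero n := ⟨on.pos.ne'⟩
  have nM : NeZero M := ⟨oM.pos.ne'⟩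
  obtain ⟨f, hf⟩ : ∃ f, e = 2 * f := ⟨e / 2, by omega⟩
  have of' : Odd f := ⟨f / 2, by omega⟩
  have oK : Odd (n * M) := on.mul oM
  have hfK : Nat.Coprime f (n * M) := by
    have h1 : Nat.Coprime f n := Nat.Coprime.coprime_mul_left (k := 2) (by rwa [← hf])
    have h2 : Nat.Coprime f M := Nat.Coprime.coprime_mul_left (k := 2) (by rwa [← hf])
    exact Nat.Coprime.mul_right h1 h2
  have j4 : J((e:ℤ) | n * M) = J((2:ℤ) | n * M) * (-1) ^ (f / 2 * ((n * M) / 2)) := by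
    have r := recip of' oK hfK
    have : J(((n * M : ℕ):ℤ) | f) = 1 := by
      have hc : n * M ≡ n * n [MOD f] := by
        rw [hMn, hf, mul_add]
        have : f ∣ n * (2 * f * dv A) := ⟨n * (2 * dv A), by ring⟩
        calc n * n + n * (2 * f * dv A) ≡ n * n + 0 [MOD f] :=
              Nat.ModEq.add_left _ ((Nat.modEq_zero_iff_dvd).mpr this)
          _ = n * n := by simp
      rw [jac_congr hc]
      push_cast
      rw [jacobiSym.mul_left, ← sq]
      refine jacobiSym.sq_one ?_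
      rw [Int.gcd_natCast_natCast]
      exact (Nat.Coprime.coprime_mul_left (k := 2) (by rwa [← hf])).symm
    rw [this, mul_one] at r
    rw [← r, hf]
    push_cast
    rw [jacobiSym.mul_left]
  rw [jacobiSym.mul_right] at j4
  have j5 : J((2:ℤ) | n * M) = ZMod.χ₈ ((n * M : ℕ) : ZMod 8) := jacobiSym.at_two oK
  rw [j5, ZMod.χ₈_nat_eq_if_mod_eight, sign_eq of' oK] at j4
  rw [sign_eq on oM] at j3
  simp only [Nat.cast_one, jacobiSym.one_left, one_mul] at j2
  push_cast at j2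
  rw [jacobiSym.mul_left] at j2
  -- combine
  have j6 : (J((e:ℤ) | n) * J((e:ℤ) | M)) * (J((n:ℤ) | M) * J((M:ℤ) | n)) =
      (-1) ^ ((cc A).choose 2) * (-1) ^ ((cc B).choose 2) := by
    rw [← j2, j1]
    linear_combination (J((e:ℤ) | M) * J((n:ℤ) | M) * (-1) ^ ((cc A).choose 2)) * jen
  rw [j4, j3, neg_one_pow_choose, neg_one_pow_choose] at j6
  have m1 := prod_mod4 hA
  have m2 := prod_mod4 hB
  rw [← hn] at m1
  rw [← hM] at m2
  have s1 := sum_mod4 hA
  have s2 := sum_mod4 hB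
  have d1 := dv_mod8 hA
  have d2 := dv_mod8 hB
  rw [← hn] at d1
  rw [h2, hN, ← hM] at d2
  have sq8 : ∀ x : ℕ, Odd x → x * x ≡ 1 [MOD 8] := by
    intro x hx
    obtain ⟨k, hk⟩ := hx
    have : x % 8 = 1 ∨ x % 8 = 3 ∨ x % 8 = 5 ∨ x % 8 = 7 := by omega
    rcases this with h | h | h | h <;> simp [Nat.ModEq, Nat.mul_mod, h]
  have K1 : n * M ≡ 1 + 2 * (f * ∑ a ∈ A, a) [MOD 8] := by
    rw [hMn]
    calc n * (n + e * dv A) = n * n + e * (n * dv A) := by ring
      _ ≡ n * n + e * (n * (n * ∑ a ∈ A, a)) [MOD 8] :=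
          Nat.ModEq.add_left _ ((d1.mul_left n).mul_left e)
      _ = (n * n) * (1 + e * ∑ a ∈ A, a) := by ring
      _ ≡ 1 * (1 + e * ∑ a ∈ A, a) [MOD 8] := (sq8 n on).mul_right _
      _ = 1 + 2 * (f * ∑ a ∈ A, a) := by rw [hf]; ring
  have K2 : ∑ b ∈ B, b ≡ 2 * (f * (n * M)) [MOD 8] := by
    calc ∑ b ∈ B, b = 1 * ∑ b ∈ B, b := (one_mul _).symm
      _ ≡ (M * M) * ∑ b ∈ B, b [MOD 8] := (sq8 M oM).symm.mul_right _
      _ = M * (M * ∑ b ∈ B, b) := by ring
      _ ≡ M * (e * n) [MOD 8] := d2.symm.mul_left _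
      _ = 2 * (f * (n * M)) := by rw [hf]; ring
  have K3 : (n * M) % 4 = ((n % 4) * (M % 4)) % 4 := Nat.mul_mod _ _ _
  have K4 : (f * ∑ a ∈ A, a) % 4 = ((f % 4) * ((∑ a ∈ A, a) % 4)) % 4 := Nat.mul_mod _ _ _
  have K5 : (f * (n * M)) % 4 = ((f % 4) * ((n * M) % 4)) % 4 := Nat.mul_mod _ _ _
  unfold Nat.ModEq at K1 K2
  generalize n * M = K at *
  generalize f * ∑ a ∈ A, a = u at *
  generalize f * K = v at *
  generalize ∑ a ∈ A, a = sA at *
  generalize ∑ b ∈ B, b = sB at *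
  have f4 : f % 4 = 1 ∨ f % 4 = 3 := by obtain ⟨k, hk⟩ := of'; omega
  have c1 : cc A % 4 = 0 ∨ cc A % 4 = 1 ∨ cc A % 4 = 2 ∨ cc A % 4 = 3 := by omega
  have c2 : cc B % 4 = 0 ∨ cc B % 4 = 1 ∨ cc B % 4 = 2 ∨ cc B % 4 = 3 := by omega
  have q1 : cc A % 2 = (cc A % 4) % 2 := by omega
  have q2 : cc B % 2 = (cc B % 4) % 2 := by omega
  rw [q1] at m1
  rw [q2] at m2
  exact final_arith f4 j6 m1 m2 s1 s2 K1 K2 K3 K4 K5


lemma aa_union {A B : Finset ℕ} (h : Disjoint A B) : aa (A ∪ B) = aa A + aa B := by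
  unfold aa
  rw [Finset.filter_union, Finset.card_union_of_disjoint (Finset.disjoint_filter_filter h)]

lemma cc_union {A B : Finset ℕ} (h : Disjoint A B) : cc (A ∪ B) = cc A + cc B := by
  unfold cc
  rw [Finset.filter_union, Finset.card_union_of_disjoint (Finset.disjoint_filter_filter h)]

lemma pairwise_union {A B : Finset ℕ}
    (cA : (A : Set ℕ).Pairwise Nat.Coprime) (cB : (B : Set ℕ).Pairwise Nat.Coprime)
    (h1 : dv A = ∏ b ∈ B, b) : ((A ∪ B : Finset ℕ) : Set ℕ).Pairwise Nat.Coprime := by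
  have c := coprime_dv cA
  rw [h1] at c
  have cross : ∀ x ∈ A, ∀ y ∈ B, Nat.Coprime x y := by
    intro x hx y hy
    have h3 : x ∣ ∏ a ∈ A, a := Finset.dvd_prod_of_mem (fun x => x) hx
    have h4 : y ∣ ∏ a ∈ B, a := Finset.dvd_prod_of_mem (fun x => x) hy
    exact (Nat.Coprime.of_dvd h4 h3 c).symm
  intro x hx y hy hxy
  have hx' : x ∈ A ∪ B := by exact_mod_cast hx
  have hy' : y ∈ A ∪ B := by exact_mod_cast hy
  rcases Finset.mem_union.mp hx' with hx | hx <;> rcases Finset.mem_union.mp hy' with hy | hy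
  · exact cA (by exact_mod_cast hx) (by exact_mod_cast hy) hxy
  · exact cross x hx y hy
  · exact (cross y hy x hx).symm
  · exact cB (by exact_mod_cast hx) (by exact_mod_cast hy) hxy

/-- the even case when the even element is in `A` -/
lemma even_left {A B : Finset ℕ} {e : ℕ} (heA : e ∈ A) (hev : Even e)
    (h4 : ∀ a ∈ A, ¬ 4 ∣ a)
    (hU : ((A ∪ B : Finset ℕ) : Set ℕ).Pairwise Nat.Coprime) (hd : Disjoint A B)
    (h1 : dv A = ∏ b ∈ B, b) (h2 : dv B = ∏ a ∈ A, a) :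
    (aa A + cc B) % 4 = 0 ∧ (aa B + 3 * cc B) % 4 = 2 := by
  have he : e % 4 = 2 := by
    have := h4 e heA
    obtain ⟨k, hk⟩ := hev
    omega
  have hodd : ∀ x ∈ A ∪ B, x ≠ e → Odd x := by
    intro x hx hxe
    have hc : Nat.Coprime x e := hU (by exact_mod_cast hx) (by
      have : e ∈ A ∪ B := Finset.mem_union_left _ heA
      exact_mod_cast this) hxe
    by_contra hno
    rw [Nat.not_odd_iff_even] at hno
    have h2 : 2 ∣ Nat.gcd x e := Nat.dvd_gcd hno.two_dvd hev.two_dvd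
    rw [hc] at h2
    omega
  have cA : (A : Set ℕ).Pairwise Nat.Coprime := hU.mono (by simp)
  have cB : (B : Set ℕ).Pairwise Nat.Coprime := hU.mono (by simp)
  have hins : insert e (A.erase e) = A := Finset.insert_erase heA
  have haa : aa A = aa (A.erase e) := by
    conv_lhs => rw [← hins]
    unfold aa
    rw [Finset.filter_insert, if_neg (by omega)]
  rw [haa]
  refine even_case (e := e) he (Finset.notMem_erase e A) (fun a ha => ?_) (fun b hb => ?_)
    (by rw [hins]; exact cA) cB (by rw [hins]; exact h1) (by rw [hins]; exact h2)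
  · have := Finset.mem_erase.mp ha
    exact hodd a (Finset.mem_union_left _ this.2) this.1
  · refine hodd b (Finset.mem_union_right _ hb) ?_
    rintro rfl
    exact Finset.disjoint_left.mp hd heA hb

theorem law {A B : Finset ℕ} (hA : ∀ a ∈ A, 0 < a) (hB : ∀ b ∈ B, 0 < b)
    (hA4 : ∀ a ∈ A, ¬ 4 ∣ a) (hB4 : ∀ b ∈ B, ¬ 4 ∣ b)
    (cA : (A : Set ℕ).Pairwise Nat.Coprime) (cB : (B : Set ℕ).Pairwise Nat.Coprime)
    (hne : ¬ (A = {1} ∧ B = {1}))
    (h : (∑ a ∈ A, (1:ℚ)/a) * (∑ b ∈ B, (1:ℚ)/b) = 1) :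
    ((∃ x ∈ A, Even x) → (aa A + cc B) % 4 = 0 ∧ (aa B + 3 * cc B) % 4 = 2) ∧
    ((∃ x ∈ B, Even x) → (aa B + cc A) % 4 = 0 ∧ (aa A + 3 * cc A) % 4 = 2) ∧
    ((∀ x ∈ A ∪ B, Odd x) →
      ((cc A + cc B) % 4 = 0 ∧ (aa A + 3 * cc A) % 4 = 1 ∧ (aa B + 3 * cc B) % 4 = 1) ∨
      ((cc A + cc B) % 4 = 1 ∧ (aa A + 3 * cc A) % 4 = 3 ∧ (aa B + 3 * cc B) % 4 = 3)) := by
  obtain ⟨h1, h2⟩ := cycle hA hB cA cB h
  have hd := disj hA hB cA hne h1 h2
  have hU := pairwise_union cA cB h1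
  refine ⟨?_, ?_, ?_⟩
  · rintro ⟨x, hx, hev⟩
    exact even_left hx hev hA4 hU hd h1 h2
  · rintro ⟨x, hx, hev⟩
    exact even_left hx hev hB4 (by rw [Finset.union_comm]; exact hU) hd.symm h2 h1
  · intro ho
    exact odd_case (fun a ha => ho a (Finset.mem_union_left _ ha))
      (fun b hb => ho b (Finset.mem_union_right _ hb)) cA cB h1 h2

lemma isSquare_left {A B : Finset ℕ} (hd : Disjoint A B)
    (h1 : dv A = ∏ b ∈ B, b) {r : ℕ} (hr : r ∈ A) :
    (((∏ x ∈ (A ∪ B).erase r, x : ℕ)) : ZMod r) = ((∏ b ∈ B, b : ℕ) : ZMod r) ^ 2 := by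
  have hrB : r ∉ B := fun h => Finset.disjoint_left.mp hd hr h
  have e1 : (A ∪ B).erase r = A.erase r ∪ B := by
    rw [Finset.erase_union_distrib, Finset.erase_eq_of_notMem hrB]
  have hd' : Disjoint (A.erase r) B := hd.mono_left (Finset.erase_subset _ _)
  rw [e1, Finset.prod_union hd', Nat.cast_mul, sq]
  congr 1
  have := dv_modEq hr
  rw [h1] at this
  exact ((ZMod.natCast_eq_natCast_iff _ _ _).mpr this).symm

lemma aa_eq (S : Finset ℕ) : (S.filter (fun x => x % 4 = 1)).card = aa S := rfl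
lemma cc_eq (S : Finset ℕ) : (S.filter (fun x => x % 4 = 3)).card = cc S := rfl

/-- **Reciprocity law for `R(A) R(B) = 1`.**  `A`, `B` are finite sets of pairwise coprime positive
integers, none divisible by `4` (for instance sets of primes), `(A, B) ≠ ({1}, {1})`, and
`(∑_{a ∈ A} 1/a) (∑_{b ∈ B} 1/b) = 1`.  Then for every `r ∈ A ∪ B` the product of the other elements
is a square modulo `r`, and the numbers of elements congruent to `1` and to `3` modulo `4` obey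
congruences modulo `4`; in particular the number of elements of `A ∪ B` congruent to `1` modulo `4`
is `2` or `3` modulo `4`, and it is `2` modulo `4` if `A ∪ B` has an even element. -/
theorem result (A B : Finset ℕ)
    (hA : ∀ a ∈ A, 0 < a ∧ ¬ 4 ∣ a) (hB : ∀ b ∈ B, 0 < b ∧ ¬ 4 ∣ b)
    (cA : (A : Set ℕ).Pairwise Nat.Coprime) (cB : (B : Set ℕ).Pairwise Nat.Coprime)
    (hne : ¬ (A = {1} ∧ B = {1}))
    (h : (∑ a ∈ A, (1:ℚ)/a) * (∑ b ∈ B, (1:ℚ)/b) = 1) :
    -- the product of the other elements is a square modulo each element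
    (∀ r ∈ A ∪ B, IsSquare (((∏ x ∈ (A ∪ B).erase r, x : ℕ)) : ZMod r)) ∧
    -- an even element in `A`
    ((∃ e ∈ A, Even e) →
      ((A.filter (fun x => x % 4 = 1)).card + (B.filter (fun x => x % 4 = 3)).card) % 4 = 0 ∧
      ((B.filter (fun x => x % 4 = 1)).card + 3 * (B.filter (fun x => x % 4 = 3)).card) % 4 = 2) ∧
    -- an even element in `B`
    ((∃ e ∈ B, Even e) →
      ((B.filter (fun x => x % 4 = 1)).card + (A.filter (fun x => x % 4 = 3)).card) % 4 = 0 ∧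
      ((A.filter (fun x => x % 4 = 1)).card + 3 * (A.filter (fun x => x % 4 = 3)).card) % 4 = 2) ∧
    -- no even element
    ((∀ x ∈ A ∪ B, Odd x) →
      (((A ∪ B).filter (fun x => x % 4 = 3)).card % 4 = 0 ∧
        ((A.filter (fun x => x % 4 = 1)).card + 3 * (A.filter (fun x => x % 4 = 3)).card) % 4 = 1 ∧
        ((B.filter (fun x => x % 4 = 1)).card + 3 * (B.filter (fun x => x % 4 = 3)).card) % 4 = 1)
      ∨ (((A ∪ B).filter (fun x => x % 4 = 3)).card % 4 = 1 ∧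
        ((A.filter (fun x => x % 4 = 1)).card + 3 * (A.filter (fun x => x % 4 = 3)).card) % 4 = 3 ∧
        ((B.filter (fun x => x % 4 = 1)).card + 3 * (B.filter (fun x => x % 4 = 3)).card) % 4 = 3))
    ∧
    -- the number of elements congruent to 1 modulo 4
    (((A ∪ B).filter (fun x => x % 4 = 1)).card % 4 = 2 ∨
      ((∀ x ∈ A ∪ B, Odd x) ∧ ((A ∪ B).filter (fun x => x % 4 = 1)).card % 4 = 3)) ∧
    2 ≤ ((A ∪ B).filter (fun x => x % 4 = 1)).card := by
  have hA' : ∀ a ∈ A, 0 < a := fun a ha => (hA a ha).1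
  have hB' : ∀ b ∈ B, 0 < b := fun b hb => (hB b hb).1
  obtain ⟨h1, h2⟩ := cycle hA' hB' cA cB h
  have hd := disj hA' hB' cA hne h1 h2
  obtain ⟨l1, l2, l3⟩ := law hA' hB' (fun a ha => (hA a ha).2) (fun b hb => (hB b hb).2)
    cA cB hne h
  simp only [aa_eq, cc_eq]
  have key : aa (A ∪ B) % 4 = 2 ∨ ((∀ x ∈ A ∪ B, Odd x) ∧ aa (A ∪ B) % 4 = 3) := by
    rw [aa_union hd]
    by_cases e1 : ∃ e ∈ A, Even e
    · have := l1 e1
      left
      omega
    · by_cases e2 : ∃ e ∈ B, Even e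
      · have := l2 e2
        left
        omega
      · have ho : ∀ x ∈ A ∪ B, Odd x := by
          intro x hx
          by_contra hno
          rw [Nat.not_odd_iff_even] at hno
          rcases Finset.mem_union.mp hx with hx | hx
          · exact e1 ⟨x, hx, hno⟩
          · exact e2 ⟨x, hx, hno⟩
        rcases l3 ho with h3 | h3
        · left
          omega
        · right
          exact ⟨ho, by omega⟩
  refine ⟨?_, l1, l2, ?_, key, ?_⟩
  · intro r hr
    rcases Finset.mem_union.mp hr with hr | hr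
    · exact ⟨_, by rw [isSquare_left hd h1 hr, sq]⟩
    · refine ⟨((∏ a ∈ A, a : ℕ) : ZMod r), ?_⟩
      rw [Finset.union_comm, isSquare_left hd.symm h2 hr, sq]
  · intro ho
    rw [cc_union hd]
    exact l3 ho
  · rcases key with h | h <;> omega

end Pool.Agent.Results.MP_acf702_nt.ReciprocityLaw
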